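import Pool.Agent.H98.AO.GStmts
import Pool.Agent.H31.CC.CHS
import Pool.Agent.H35.MA.ACF

/-!
Module FSU: finite supports in a basis.
-/

set_option autoImplicit false
set_option linter.unusedVariables false
set_option linter.unusedSectionVars false
set_option synthInstance.maxSize 100000

namespace AO

open SW

theorem fsu (gen : GENStmt) : FSUStmt := by
  intro N _ _ hS G m B hG _ hR hB
  obtain ⟨cl, hcl, hmem, -⟩ := gen N hS G m hR
  have hcl' : ∀ {k : ℕ} {t : (Fin k → N) → N} [DfT t], DfT (fun v => cl (t v)) :=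
    fun {k} {t} ht => hcl.comp1 ht
  have key : ∀ x : {x : N // E x G}, x ∈ Subgroup.closure (EX G B) →
      ∃ F : N, Fnt F ∧ Sub F B ∧ x ∈ Subgroup.closure (EX G F) := by
    intro x hx
    induction hx using Subgroup.closure_induction with
    | mem x hx =>
      refine ⟨ins x.1 emp, finF.ins finF.emp, ?_, Subgroup.subset_closure ?_⟩
      · intro z hz
        rw [mem_ins] at hz
        rcases hz with hz | rfl
        · exact absurd hz (by simp)
        · exact hx
      · change E x.1 _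
        rw [mem_ins]
        exact Or.inr rfl
    | one => exact ⟨emp, finF.emp, fun z hz => absurd hz (by simp), one_mem _⟩
    | mul x y _ _ ihx ihy =>
      obtain ⟨F, hF, hFB, hx⟩ := ihx
      obtain ⟨F', hF', hFB', hy⟩ := ihy
      have h1 : EX G F ⊆ EX G (bun F F') := fun z hz => mem_bun.2 (Or.inl hz)
      have h2 : EX G F' ⊆ EX G (bun F F') := fun z hz => mem_bun.2 (Or.inr hz)
      refine ⟨bun F F', finF.bun hF hF', ?_, mul_mem (Subgroup.closure_mono h1 hx)
        (Subgroup.closure_mono h2 hy)⟩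
      intro z hz
      rw [mem_bun] at hz
      exact hz.elim (hFB z) (hFB' z)
    | inv x _ ih =>
      obtain ⟨F, hF, hFB, hx⟩ := ih
      exact ⟨F, hF, hFB, inv_mem hx⟩
  obtain ⟨s, hs⟩ := SW.CC.cc_chs ma_acf N G (fun a F => Fnt F ∧ Sub F B ∧ E a (cl F))
    inferInstance (fun a ha => by
      obtain ⟨F, hF, hFB, hx⟩ := key ⟨a, ha⟩ (by rw [hB]; trivial)
      exact ⟨F, hF, hFB, (hmem F a).2 ⟨ha, hx⟩⟩)
  refine ⟨s, fun a ha => ?_⟩
  obtain ⟨h1, h2, h3⟩ := hs a ha
  obtain ⟨h4, h5⟩ := (hmem _ a).1 h3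
  exact ⟨h1, h2, h5⟩

end AO
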