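import Pool.Agent.H98.AO.GStmts

/-!
Module GFR: good orders give bases.
-/

set_option autoImplicit false
set_option linter.unusedVariables false
set_option linter.unusedSectionVars false
set_option synthInstance.maxSize 100000

namespace AO

open SW

/-- pulling a basis back along an injective homomorphism -/
theorem gfr_pull {G K : Type} [Group G] [Group K] (φ : G →* K) (hφ : Function.Injective φ)
    (B : Set G) (C : Set K) (H : Subgroup K) (hC : FB C H) (hH : ∀ g, φ g ∈ H)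
    (hB : ∀ g, g ∈ B ↔ φ g ∈ C) (hs : ∀ c ∈ C, ∃ g, φ g = c) : FB B ⊤ := by
  have himg : φ '' B = C := by
    ext c
    constructor
    · rintro ⟨g, hg, rfl⟩
      exact (hB g).1 hg
    · intro hc
      obtain ⟨g, rfl⟩ := hs c hc
      exact ⟨g, (hB g).2 hc, rfl⟩
  constructor
  · have e : ∀ w : FreeGroup B, φ (FreeGroup.lift (fun b : B => (b : G)) w) =
        FreeGroup.lift (fun b : C => (b : K))
          (FreeGroup.map (fun b : B => (⟨φ b.1, (hB b.1).1 b.2⟩ : C)) w) := by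
      intro w
      have : (φ.comp (FreeGroup.lift (fun b : B => (b : G)))) =
          (FreeGroup.lift (fun b : C => (b : K))).comp
            (FreeGroup.map (fun b : B => (⟨φ b.1, (hB b.1).1 b.2⟩ : C))) := by
        ext b
        simp
      exact DFunLike.congr_fun this w
    intro w w' hw
    have h1 : FreeGroup.lift (fun b : C => (b : K))
        (FreeGroup.map (fun b : B => (⟨φ b.1, (hB b.1).1 b.2⟩ : C)) w) =
        FreeGroup.lift (fun b : C => (b : K))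
        (FreeGroup.map (fun b : B => (⟨φ b.1, (hB b.1).1 b.2⟩ : C)) w') := by
      rw [← e, ← e, hw]
    have h2 := hC.1 h1
    refine FreeGroup.map_injective ?_ h2
    intro b b' hbb
    have := congrArg Subtype.val hbb
    exact Subtype.ext (hφ this)
  · rw [eq_top_iff]
    intro g _
    have h1 : φ g ∈ Subgroup.closure C := by rw [hC.2]; exact hH g
    rw [← himg, ← MonoidHom.map_closure] at h1
    obtain ⟨g', hg', he⟩ := h1
    rwa [← hφ he]

theorem gfr (std : STDStmt) (wox : WOXStmt) (vox : VOXStmt) (kap : KAPStmt) (ibs : IBSStmt)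
    (gob : GOBStmt) (ghm : GHMStmt) : GFRStmt := by
  obtain ⟨R, hR⟩ := ibs
  refine ⟨R, ?_⟩
  intro N _ _ hW hH hZD c m L h hGD V W H hV hGW hVS hHg
  have hS : Std N := std N hW
  have vf := vox N hS
  obtain ⟨k, hk1, hk2, hk3⟩ := kap N hS hZD V W hV hGW
  classical
  -- the function kappa
  have hkn : ∀ x y : N, Sub x om → Sub y om → ∃ n : ℕ, app k (opair x y) = nu n :=
    fun x y hx hy => hS _ (hk1 x y hx hy)
  let κ : Rl → Rl → ℕ := fun a b =>
    if h : ∃ n : ℕ, ∃ x y : N, Sub x om ∧ Sub y om ∧ rb x = a ∧ rb y = b ∧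
      app k (opair x y) = nu n then h.choose else 0
  have hκ : ∀ x y : N, Sub x om → Sub y om → app k (opair x y) = nu (κ (rb x) (rb y)) := by
    intro x y hx hy
    obtain ⟨n, hn⟩ := hkn x y hx hy
    have he : ∃ n : ℕ, ∃ x' y' : N, Sub x' om ∧ Sub y' om ∧ rb x' = rb x ∧ rb y' = rb y ∧
      app k (opair x' y') = nu n := ⟨n, x, y, hx, hy, rfl, rfl, hn⟩
    have hκe : κ (rb x) (rb y) = he.choose := by
      simp only [κ]
      rw [dif_pos he]
    obtain ⟨x', y', hx', hy', e1, e2, e3⟩ := he.choose_spec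
    rw [hκe, ← e3, vf.inj x' x hx' hx e1, vf.inj y' y hy' hy e2]
  obtain ⟨B, hBK, hBm⟩ := hR N hS hH hZD c m L h hGD V W k κ hV hκ
  -- the good order gives a basis
  have hob : FB (Bas ZZ (VX V) (rW W) κ) (GV ZZ (VX V)) := by
    refine gob ZZ (VX V) (rW W) κ ?_ ?_ ?_ ?_ ?_ ?_
    · intro S hSV hne
      obtain ⟨v, hv, hvm⟩ := wox N hW V W hGW
        {z : N | ∃ (i : Bool) (x : N), Sub x om ∧ z = vx i x ∧ (i, rb x) ∈ S} (by
          rintro z ⟨i, x, hx, rfl, hs⟩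
          exact (vf.mem V x i hx).1 (hSV hs)) (by
          obtain ⟨⟨i, X⟩, hv⟩ := hne
          obtain ⟨x, hx, hxv, hm⟩ := hSV hv
          simp only at hxv hm
          subst hxv
          exact ⟨vx i x, i, x, hx, rfl, hv⟩)
      obtain ⟨i, x, hx, rfl, hs⟩ := hv
      refine ⟨(i, rb x), hs, ?_⟩
      rintro ⟨j, Y⟩ hv' hr
      obtain ⟨y, hy, hyv, hm⟩ := hSV hv'
      simp only at hyv hm
      subst hyv
      exact hvm (vx j y) ⟨j, y, hy, rfl, hv'⟩ ((vf.rw W y x j i hy hx).1 hr)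
    · rintro ⟨i, X⟩ ⟨x, hx, hxv, hm⟩ ⟨j, Y⟩ ⟨y, hy, hyv, hm'⟩ hne
      simp only at hxv hm hyv hm'
      subst hxv
      subst hyv
      rw [vf.rw W x y i j hx hy, vf.rw W y x j i hy hx]
      refine hGW.tot _ _ hm hm' fun he => hne ?_
      obtain ⟨rfl, rfl⟩ := vf.vxi _ _ _ _ he
      rfl
    · rintro ⟨i, X⟩ ⟨x, hx, hxv, hm⟩ ⟨j, Y⟩ ⟨y, hy, hyv, hm'⟩
      simp only at hxv hm hyv hm'
      subst hxv
      subst hyv
      rw [vf.rw W x y i j hx hy, vf.rw W y x j i hy hx]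
      exact hGW.asy _ _ hm hm'
    · rintro ⟨i, X⟩ ⟨x, hx, hxv, hm⟩ ⟨j, Y⟩ ⟨y, hy, hyv, hm'⟩ ⟨l, Z⟩ ⟨z, hz, hzv, hm''⟩
      simp only at hxv hm hyv hm' hzv hm''
      subst hxv
      subst hyv
      subst hzv
      rw [vf.rw W x y i j hx hy, vf.rw W y z j l hy hz, vf.rw W x z i l hx hz]
      exact hGW.tra _ _ _ hm hm' hm''
    · rintro X Y Y' n ⟨x, hx, hxv, hm⟩ ⟨y, hy, hyv, hm'⟩ ⟨y', hy', hyv', hm''⟩ hz hz' hr hr' hn
        hn' hs
      simp only at hxv hm hyv hm' hyv' hm''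
      subst hxv
      subst hyv
      subst hyv'
      rw [vf.rw W _ _ _ _ hy hx] at hr
      rw [vf.rw W _ _ _ _ hy' hx] at hr'
      rw [vf.str y y' (n + 1) hy hy'] at hs
      rw [hk2 x y y' n _ _ hm hm' hm'' hz hz' hr hr' (hκ x y hx hy) (hκ x y' hx hy') hn hn' hs]
    · rintro X X' Y n ⟨x, hx, hxv, hm⟩ ⟨x', hx', hxv', hm'⟩ ⟨y, hy, hyv, hm''⟩ hz hz' hr hr' hn
        hn' hs
      simp only at hxv hm hyv hm' hxv' hm''
      subst hxv
      subst hyv
      subst hxv'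
      rw [vf.rw W _ _ _ _ hx hy] at hr
      rw [vf.rw W _ _ _ _ hx' hy] at hr'
      rw [vf.str x x' (n + 1) hx hx'] at hs
      rw [hk3 x x' y n _ _ hm hm' hm'' hz hz' hr hr' (hκ x y hx hy) (hκ x' y hx' hy) hn hn' hs]
  have hsub : ∀ g ∈ Bas ZZ (VX V) (rW W) κ, g ∈ GV ZZ (VX V) := fun g hg => by
    rw [← hob.2]
    exact Subgroup.subset_closure hg
  have hVN : VX V ⊆ VN N := by
    rintro v ⟨x, hx, hxv, -⟩
    exact ⟨x, hx, hxv⟩
  have hGV : GV ZZ (VX V) ≤ GV ZZ (VN N) := by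
    refine Subgroup.closure_mono ?_
    rintro g (⟨v, s, hv, rfl⟩ | ⟨y, w, n, hy, hw, rfl⟩)
    · exact Or.inl ⟨v, s, hVN hv, rfl⟩
    · exact Or.inr ⟨y, w, n, hVN hy, hVN hw, rfl⟩
  refine ⟨B, fun a ha => ?_, ?_⟩
  · exact (hVS.2 a (hBK a ha)).2 (hsub _ ((hBm a (hBK a ha)).1 ha))
  · intro _ hRep
    obtain ⟨φ, hφ, hφa⟩ := (ghm N c m L h hGD).2 H hVS.1 hHg hRep
    refine gfr_pull φ hφ (EX H B) _ _ hob ?_ ?_ ?_
    · intro g
      rw [hφa]
      exact (hVS.2 g.1 (hVS.1 _ g.2)).1 g.2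
    · intro g
      rw [hφa]
      exact hBm g.1 (hVS.1 _ g.2)
    · intro b hb
      obtain ⟨a, ha, rfl⟩ := (hGD.rng b).2 (hGV (hsub b hb))
      exact ⟨⟨a, (hVS.2 a ha).2 (hsub _ hb)⟩, hφa _⟩

end AO
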