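import Pool.Agent.H98.AO.GStmts
import Pool.Agent.H78.CUR.NU

/-!
Module VSG: the subgroups generated by vertices.
-/

set_option autoImplicit false
set_option linter.unusedVariables false
set_option linter.unusedSectionVars false
set_option synthInstance.maxSize 100000

namespace AO

open SW

/-- an internal set given by an external subgroup is an internal group -/
theorem vsg_sub (gpg : GPGStmt) {N : Type} [SetStr N] [ZF N] (G m H : N) (hG : IsGroup G m)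
    [Group {x : N // E x G}] (hR : Rep G m) (hHG : Incl H G) (S : Subgroup {x : N // E x G})
    (hS : ∀ x : {x : N // E x G}, x ∈ S ↔ E x.1 H) : IsGroup H m := by
  let e : {x : N // E x H} ≃ S :=
    { toFun := fun x => ⟨⟨x.1, hHG x.1 x.2⟩, (hS _).2 x.2⟩
      invFun := fun y => ⟨y.1.1, (hS _).1 y.2⟩
      left_inv := fun x => rfl
      right_inv := fun y => rfl }
  let _ : Group {x : N // E x H} := e.group
  refine gpg N H m ?_ ?_
  · intro a b d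
    rw [hR ⟨a.1, hHG a.1 a.2⟩ ⟨b.1, hHG b.1 b.2⟩ ⟨d.1, hHG d.1 d.2⟩]
    constructor
    · intro h
      apply e.injective
      rw [Equiv.mul_def, e.apply_symm_apply]
      exact Subtype.ext h
    · intro h
      have h1 : e (a * b) = e d := by rw [h]
      rw [Equiv.mul_def, e.apply_symm_apply] at h1
      exact congrArg Subtype.val h1
  · intro a b d ha hb ht
    obtain ⟨d', hd', ht'⟩ := hG.1.1 a b (hHG a ha) (hHG b hb)
    obtain rfl := hG.1.2 a b d d' (hHG a ha) (hHG b hb) ht ht'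
    have h1 := (hR ⟨a, hHG a ha⟩ ⟨b, hHG b hb⟩ ⟨d, hd'⟩).1 ht
    have h2 : (⟨d, hd'⟩ : {x : N // E x G}) ∈ S := by
      rw [← h1]
      exact mul_mem ((hS _).2 ha) ((hS _).2 hb)
    exact (hS _).1 h2

/-- the codes of strings -/
def vsgR : ℕ → Set (Fin 5 → ℕ) := fun _ => {t | ∃ s : Str, t 0 = sc s}

theorem vsg (gen : GENStmt) (gpi : GPIStmt) (gpg : GPGStmt) (ghm : GHMStmt) : VSGStmt := by
  refine ⟨vsgR, ?_⟩
  intro N _ _ hS hH c m L h hGD V hV
  obtain ⟨hKG, hall⟩ := ghm N c m L h hGD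
  obtain ⟨ig, hRep⟩ := gpi N (CUR.KS c) m hKG
  obtain ⟨φ, hφ, hφa⟩ := hall (CUR.KS c) (fun _ hx => hx) hKG hRep
  obtain ⟨cl, hcl, hmem, -⟩ := gen N hS (CUR.KS c) m hRep
  obtain ⟨f, hf, hfx⟩ := hGD.gx
  obtain ⟨f', hf', hft⟩ := hGD.gt
  obtain ⟨a0, ha0⟩ := hH 0
  -- codes of strings in the model
  let T : N → Prop := fun n => E n om ∧
    E (opair n (opair (nu 0) (opair (nu 0) (opair (nu 0) (nu 0))))) a0
  have hTd : Cl T := by
    change Cl (fun n => E n om ∧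
      E (opair n (opair (nu 0) (opair (nu 0) (opair (nu 0) (nu 0))))) a0)
    infer_instance
  have hT : ∀ n, T n ↔ ∃ s : Str, n = nu (sc s) := by
    intro n
    have hk : ∀ k : ℕ, E (opair (nu k) (opair (nu 0) (opair (nu 0) (opair (nu 0)
        (nu 0))))) a0 ↔ ∃ s : Str, k = sc s := by
      intro k
      have := ha0 ![k, 0, 0, 0, 0]
      simpa [CUR.tupv, vsgR] using this
    constructor
    · rintro ⟨h1, h2⟩
      obtain ⟨k, rfl⟩ := hS n h1
      obtain ⟨s, rfl⟩ := (hk k).1 h2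
      exact ⟨s, rfl⟩
    · rintro ⟨s, rfl⟩
      exact ⟨CUR.nu_mem_om _, (hk _).2 ⟨s, rfl⟩⟩
  have _ : ∀ {k : ℕ} {t s u : (Fin k → N) → N} [DfT t] [DfT s] [DfT u],
      DfT (fun v => f (t v) (s v) (u v)) := fun {k} {t s u} ht hs hu => hf.comp3 ht hs hu
  have _ : ∀ {k : ℕ} {t s u : (Fin k → N) → N} [DfT t] [DfT s] [DfT u],
      DfT (fun v => f' (t v) (s v) (u v)) := fun {k} {t s u} ht hs hu => hf'.comp3 ht hs hu
  have _ : ∀ {k : ℕ} {t : (Fin k → N) → N} [DfT t], Df (fun v => T (t v)) :=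
    fun {k} {t} ht => hTd.comp1 ht
  let P : N → Prop := fun a => (∃ x n, Sub x om ∧ T n ∧ ((E (opair emp x) V ∧ a = f emp x n) ∨
    (E (opair (sing emp) x) V ∧ a = f (sing emp) x n))) ∨
    ∃ x y n, Sub x om ∧ Sub y om ∧ E n om ∧ E (opair emp x) V ∧ E (opair (sing emp) y) V ∧
      a = f' x y n
  have hP : Cl P := by
    change Cl (fun a => (∃ x n, Sub x om ∧ T n ∧ ((E (opair emp x) V ∧ a = f emp x n) ∨
    (E (opair (sing emp) x) V ∧ a = f (sing emp) x n))) ∨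
    ∃ x y n, Sub x om ∧ Sub y om ∧ E n om ∧ E (opair emp x) V ∧ E (opair (sing emp) y) V ∧
      a = f' x y n)
    infer_instance
  let X : N := sep (CUR.KS c) P
  have hX : ∀ a, E a X ↔ E a (CUR.KS c) ∧ P a := fun a => mem_sep' hP
  have himg : φ '' (EX (CUR.KS c) X) = GS ZZ (VX V) := by
    ext g
    constructor
    · rintro ⟨⟨a, haK⟩, ha, rfl⟩
      rw [hφa]
      change h a ∈ _
      rcases ((hX a).1 ha).2 with ⟨x, n, hx, hn, h1⟩ | ⟨x, y, n, hx, hy, hn, h1, h2, h3⟩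
      · obtain ⟨s, rfl⟩ := (hT n).1 hn
        rcases h1 with ⟨h1, h2⟩ | ⟨h1, h2⟩
        · exact Or.inl ⟨(false, rb x), s, ⟨x, hx, rfl, h1⟩, by rw [h2]; exact (hfx x hx s).1.2⟩
        · exact Or.inl ⟨(true, rb x), s, ⟨x, hx, rfl, h1⟩, by rw [h2]; exact (hfx x hx s).2.2⟩
      · obtain ⟨k, rfl⟩ := hS n hn
        exact Or.inr ⟨rb x, rb y, k, ⟨x, hx, rfl, h1⟩, ⟨y, hy, rfl, h2⟩, by
          rw [h3]; exact (hft x y hx hy k).2⟩
    · rintro (⟨⟨i, Y⟩, s, ⟨x, hx, hxv, hm⟩, rfl⟩ | ⟨Y, Z, n, ⟨x, hx, hxv, hm⟩,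
        ⟨y, hy, hyv, hm'⟩, rfl⟩)
      · simp only at hxv hm
        subst hxv
        cases i
        · refine ⟨⟨f emp x (nu (sc s)), (hfx x hx s).1.1⟩, (hX _).2 ⟨(hfx x hx s).1.1,
            Or.inl ⟨x, _, hx, (hT _).2 ⟨s, rfl⟩, Or.inl ⟨hm, rfl⟩⟩⟩, ?_⟩
          rw [hφa]
          exact (hfx x hx s).1.2
        · refine ⟨⟨f (sing emp) x (nu (sc s)), (hfx x hx s).2.1⟩, (hX _).2 ⟨(hfx x hx s).2.1,
            Or.inl ⟨x, _, hx, (hT _).2 ⟨s, rfl⟩, Or.inr ⟨hm, rfl⟩⟩⟩, ?_⟩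
          rw [hφa]
          exact (hfx x hx s).2.2
      · simp only at hxv hm hyv hm'
        subst hxv
        subst hyv
        refine ⟨⟨f' x y (nu n), (hft x y hx hy n).1⟩, (hX _).2 ⟨(hft x y hx hy n).1,
          Or.inr ⟨x, y, _, hx, hy, CUR.nu_mem_om _, hm, hm', rfl⟩⟩, ?_⟩
        rw [hφa]
        exact (hft x y hx hy n).2
  have hclS : ∀ a (ha : E a (CUR.KS c)), E a (cl X) ↔ h a ∈ GV ZZ (VX V) := by
    intro a ha
    rw [hmem]
    have h1 : GV ZZ (VX V) = (Subgroup.closure (EX (CUR.KS c) X)).map φ := by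
      rw [MonoidHom.map_closure, himg]
      rfl
    rw [h1]
    constructor
    · rintro ⟨h2, h3⟩
      exact ⟨⟨a, h2⟩, h3, hφa _⟩
    · rintro ⟨⟨b, hb⟩, h3, h4⟩
      rw [hφa] at h4
      obtain rfl := hGD.inj b a hb ha h4
      exact ⟨hb, h3⟩
  refine ⟨cl X, ⟨fun y hy => ((hmem X y).1 hy).1, hclS⟩, ?_⟩
  refine vsg_sub gpg (CUR.KS c) m (cl X) hKG hRep (fun y hy => ((hmem X y).1 hy).1)
    (Subgroup.closure (EX (CUR.KS c) X)) ?_
  intro x
  rw [hmem]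
  exact ⟨fun hx => ⟨x.2, hx⟩, fun ⟨_, hx⟩ => hx⟩

end AO
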